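import Mathlib

set_option autoImplicit false

namespace Run7.h890

open Set Topology

/-- clamp to the unit interval -/
noncomputable def clamp01 (t : ℝ) : ℝ := max 0 (min 1 t)

lemma clamp01_of_ge {t : ℝ} (h : 1 ≤ t) : clamp01 t = 1 := by
  unfold clamp01; rw [min_eq_left h]; norm_num

lemma clamp01_of_le {t : ℝ} (h : t ≤ 0) : clamp01 t = 0 := by
  unfold clamp01; rw [min_eq_right (by linarith), max_eq_left h]

lemma clamp01_of_mem {t : ℝ} (h0 : 0 ≤ t) (h1 : t ≤ 1) : clamp01 t = t := by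
  unfold clamp01; rw [min_eq_right h1, max_eq_right h0]

lemma continuous_clamp01 : Continuous clamp01 := by
  unfold clamp01; fun_prop

/-- piecewise linear interpolation of `p 0, p 1, …, p m` -/
noncomputable def poly (p : ℕ → ℂ) (m : ℕ) (t : ℝ) : ℂ :=
  p 0 + ∑ k ∈ Finset.range m, ((clamp01 (t - k) : ℝ) : ℂ) * (p (k+1) - p k)

lemma continuous_poly (p : ℕ → ℂ) (m : ℕ) : Continuous (poly p m) := by
  unfold poly
  refine continuous_const.add (continuous_finset_sum _ fun k _ => ?_)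
  refine Continuous.mul ?_ continuous_const
  exact Complex.continuous_ofReal.comp (continuous_clamp01.comp (by fun_prop))

lemma poly_eq (p : ℕ → ℂ) (m : ℕ) {k : ℕ} (hk : k < m) {t : ℝ} (h0 : (k:ℝ) ≤ t)
    (h1 : t ≤ k + 1) :
    poly p m t = p k + ((t - k : ℝ) : ℂ) * (p (k+1) - p k) := by
  unfold poly
  have key : ∀ n, k + 1 ≤ n →
      ∑ j ∈ Finset.range n, ((clamp01 (t - j) : ℝ) : ℂ) * (p (j+1) - p j)
        = p k - p 0 + ((t - k : ℝ) : ℂ) * (p (k+1) - p k) := by
    intro n hn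
    induction n, hn using Nat.le_induction with
    | base =>
      rw [Finset.sum_range_succ, clamp01_of_mem (by linarith) (by linarith)]
      congr 1
      rw [← Finset.sum_range_sub p k]
      refine Finset.sum_congr rfl fun j hj => ?_
      have hj' : (j:ℝ) + 1 ≤ k := by exact_mod_cast Finset.mem_range.1 hj
      rw [clamp01_of_ge (by linarith)]
      simp
    | succ n hn ih =>
      rw [Finset.sum_range_succ, ih]
      have hn' : (k:ℝ) + 1 ≤ n := by exact_mod_cast hn
      rw [clamp01_of_le (by linarith)]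
      simp
  rw [key m hk]
  ring

/-- A closed polygon without self-intersections is a Jordan curve. -/
lemma exists_curve (m : ℕ) (hm : 0 < m) (p : ℕ → ℂ) (hclose : p m = p 0)
    (hinj : ∀ k l, k < m → l < m → ∀ s t : ℝ, 0 ≤ s → s < 1 → 0 ≤ t → t < 1 →
      p k + (s:ℂ) * (p (k+1) - p k) = p l + (t:ℂ) * (p (l+1) - p l) → k = l ∧ s = t) :
    ∃ γ : Circle → ℂ, Continuous γ ∧ Function.Injective γ ∧
      Set.range γ = {z | ∃ k < m, ∃ s : ℝ, 0 ≤ s ∧ s ≤ 1 ∧
        z = p k + (s:ℂ) * (p (k+1) - p k)} := by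
  have hm' : (0:ℝ) < m := by exact_mod_cast hm
  haveI : Fact (0 < (m:ℝ)) := ⟨hm'⟩
  -- value on Ico
  have hval : ∀ x : ℝ, x ∈ Ico (0:ℝ) m → ∃ k, k < m ∧ (k:ℝ) ≤ x ∧ x < k + 1 ∧
      poly p m x = p k + ((x - k : ℝ) : ℂ) * (p (k+1) - p k) := by
    intro x hx
    have hfl : ⌊x⌋₊ < m := by
      rw [Nat.floor_lt hx.1]; exact hx.2
    refine ⟨⌊x⌋₊, hfl, Nat.floor_le hx.1, Nat.lt_floor_add_one x, ?_⟩
    exact poly_eq p m hfl (Nat.floor_le hx.1) (Nat.lt_floor_add_one x).le
  have h0 : poly p m 0 = p 0 := by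
    rw [poly_eq p m hm (by simp) (by simp)]; simp
  have hmm : poly p m m = p 0 := by
    obtain ⟨n, rfl⟩ : ∃ n, m = n + 1 := ⟨m - 1, by omega⟩
    rw [poly_eq p (n+1) (Nat.lt_succ_self n) (by push_cast; linarith) (by push_cast; linarith)]
    rw [← hclose]; push_cast; ring
  let e := AddCircle.homeomorphCircle (T := (m:ℝ)) hm'.ne'
  refine ⟨AddCircle.liftIco (m:ℝ) 0 (poly p m) ∘ e.symm, ?_, ?_, ?_⟩
  · refine Continuous.comp ?_ e.symm.continuous
    exact AddCircle.liftIco_zero_continuous (by rw [h0, hmm]) (continuous_poly p m).continuousOn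
  · refine Function.Injective.comp ?_ e.symm.injective
    intro x y hxy
    obtain ⟨a, ha, rfl⟩ := AddCircle.eq_coe_Ico x
    obtain ⟨b, hb, rfl⟩ := AddCircle.eq_coe_Ico y
    rw [AddCircle.liftIco_zero_coe_apply ha, AddCircle.liftIco_zero_coe_apply hb] at hxy
    obtain ⟨k, hk, hk1, hk2, hk3⟩ := hval a ha
    obtain ⟨l, hl, hl1, hl2, hl3⟩ := hval b hb
    rw [hk3, hl3] at hxy
    obtain ⟨rfl, hst⟩ := hinj k l hk hl (a - k) (b - l) (by linarith) (by linarith) (by linarith)
      (by linarith) hxy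
    have : a = b := by linarith
    rw [this]
  · ext z
    constructor
    · rintro ⟨w, rfl⟩
      obtain ⟨a, ha, hae⟩ := AddCircle.eq_coe_Ico (e.symm w)
      obtain ⟨k, hk, hk1, hk2, hk3⟩ := hval a ha
      refine ⟨k, hk, a - k, by linarith, by linarith, ?_⟩
      simp only [Function.comp]
      rw [← hae, AddCircle.liftIco_zero_coe_apply ha, hk3]
    · rintro ⟨k, hk, s, hs0, hs1, rfl⟩
      have hk' : (k:ℝ) + 1 ≤ m := by exact_mod_cast hk
      have hp : poly p m (k + s) = p k + (s:ℂ) * (p (k+1) - p k) := by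
        rw [poly_eq p m hk (by linarith) (by linarith)]
        congr 3; ring
      rcases lt_or_ge ((k:ℝ) + s) m with h | h
      · refine ⟨e ((k + s : ℝ) : AddCircle (m:ℝ)), ?_⟩
        have hmem : (k + s : ℝ) ∈ Ico (0:ℝ) m := ⟨by positivity, h⟩
        simp only [Function.comp, Homeomorph.symm_apply_apply]
        rw [AddCircle.liftIco_zero_coe_apply hmem, hp]
      · have : (k:ℝ) + s = m := by linarith
        rw [← hp, this, hmm, ← h0]
        refine ⟨e ((0 : ℝ) : AddCircle (m:ℝ)), ?_⟩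
        have hmem : (0 : ℝ) ∈ Ico (0:ℝ) m := ⟨le_refl _, hm'⟩
        simp only [Function.comp, Homeomorph.symm_apply_apply]
        rw [AddCircle.liftIco_zero_coe_apply hmem]

end Run7.h890
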