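import Mathlib

set_option autoImplicit false

namespace Run7.h890

open Set Topology Filter

/-- horizontal unit edge from `(a,b)` to `(a+1,b)` -/
def hEdge (a b : ℕ) : Set ℂ := {z | z.im = b ∧ (a:ℝ) ≤ z.re ∧ z.re ≤ a + 1}
/-- vertical unit edge from `(a,b)` to `(a,b+1)` -/
def vEdge (a b : ℕ) : Set ℂ := {z | z.re = a ∧ (b:ℝ) ≤ z.im ∧ z.im ≤ b + 1}

/-- union of the chosen edges -/
def wallSet (HW VW : ℕ → ℕ → Prop) : Set ℂ :=
  {z | (∃ a b, HW a b ∧ z ∈ hEdge a b) ∨ ∃ a b, VW a b ∧ z ∈ vEdge a b}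

/-- `x` lies in the closed column `a` (columns `0` and `W` are unbounded) -/
def near (W : ℕ) (x : ℝ) (a : ℕ) : Prop :=
  a ≤ W ∧ (1 ≤ a → (a:ℝ) ≤ x) ∧ (a < W → x ≤ a + 1)

/-- a column containing `x` -/
noncomputable def ix (W : ℕ) (x : ℝ) : ℕ := min ⌊x⌋₊ W

lemma near_ix (W : ℕ) (x : ℝ) : near W x (ix W x) := by
  unfold near ix
  refine ⟨min_le_right _ _, ?_, ?_⟩
  · intro h
    have h1 : min ⌊x⌋₊ W ≤ ⌊x⌋₊ := min_le_left _ _
    rcases le_or_gt 0 x with hx | hx
    · exact le_trans (by exact_mod_cast h1) (Nat.floor_le hx)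
    · rw [Nat.floor_of_nonpos hx.le] at h; simp at h
  · intro h
    have h1 : min ⌊x⌋₊ W = ⌊x⌋₊ := by
      rcases min_choice ⌊x⌋₊ W with h2 | h2
      · exact h2
      · omega
    rw [h1]
    exact (Nat.lt_floor_add_one x).le

lemma near_adj {W : ℕ} {x : ℝ} {a a' : ℕ} (h : near W x a) (h' : near W x a') (hlt : a < a') :
    a' = a + 1 ∧ x = a' := by
  obtain ⟨h1, h2, h3⟩ := h
  obtain ⟨h1', h2', h3'⟩ := h'
  have e1 := h3 (by omega)
  have e2 := h2' (by omega)
  have e3 : (a':ℝ) ≤ a + 1 := le_trans e2 e1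
  have e4 : a' ≤ a + 1 := by exact_mod_cast e3
  have e5 : a' = a + 1 := by omega
  refine ⟨e5, le_antisymm ?_ e2⟩
  rw [e5]; push_cast; exact e1

lemma isClosed_near (W a : ℕ) : IsClosed {x : ℝ | near W x a} := by
  unfold near
  by_cases h : a ≤ W
  · by_cases h1 : 1 ≤ a <;> by_cases h2 : a < W
    · simp only [h, h1, h2, true_and, true_imp_iff]
      exact (isClosed_le continuous_const continuous_id).inter
        (isClosed_le continuous_id continuous_const)
    · simp only [h, h1, h2, true_and, true_imp_iff, false_imp_iff, and_true]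
      exact isClosed_le continuous_const continuous_id
    · simp only [h, h1, h2, true_and, true_imp_iff, false_imp_iff]
      exact isClosed_le continuous_id continuous_const
    · simp only [h, h1, h2, true_and, false_imp_iff]
      simp
  · simp only [h, false_and]; simp

lemma eventually_near (W : ℕ) (x : ℝ) : ∀ᶠ x' in 𝓝 x, ∀ a, near W x' a → near W x a := by
  have h1 : ∀ᶠ x' in 𝓝 x, ∀ a ∈ Finset.range (W+1), near W x' a → near W x a := by
    rw [Filter.eventually_all_finset]
    intro a _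
    by_cases h : near W x a
    · exact Filter.Eventually.of_forall fun _ _ => h
    · have : {x : ℝ | near W x a}ᶜ ∈ 𝓝 x := (isClosed_near W a).isOpen_compl.mem_nhds h
      filter_upwards [this] with x' hx' hn
      exact absurd hn hx'
  filter_upwards [h1] with x' hx' a ha
  exact hx' a (Finset.mem_range.2 (Nat.lt_succ_of_le ha.1)) ha

section walls

variable {W H : ℕ} {HW VW : ℕ → ℕ → Prop}

/-- the label function agrees across every edge that is not a wall -/
structure LabelOK (W H : ℕ) (HW VW : ℕ → ℕ → Prop) {α : Type*} (L : ℕ → ℕ → α) : Prop where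
  v : ∀ a b, a + 1 ≤ W → b ≤ H → L a b = L (a+1) b ∨ VW (a+1) b
  h : ∀ a b, a ≤ W → b + 1 ≤ H → L a b = L a (b+1) ∨ HW a (b+1)

/-- all walls lie in the box `[1,W] × [1,H]` -/
structure Bounded (W H : ℕ) (HW VW : ℕ → ℕ → Prop) : Prop where
  hb : ∀ a b, HW a b → 1 ≤ a ∧ a + 1 ≤ W ∧ 1 ≤ b ∧ b ≤ H
  vb : ∀ a b, VW a b → 1 ≤ a ∧ a ≤ W ∧ 1 ≤ b ∧ b + 1 ≤ H

lemma label_core {α : Type*} {L : ℕ → ℕ → α} (hB : Bounded W H HW VW)
    (hL : LabelOK W H HW VW L) {z : ℂ} (hz : z ∉ wallSet HW VW) {a a' b b' : ℕ}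
    (ha : near W z.re a) (ha' : near W z.re a') (hb : near H z.im b) (hb' : near H z.im b') :
    L a b = L a' b' := by
  have step1 : ∀ a a' b, near W z.re a → near W z.re a' → near H z.im b → a < a' →
      L a b = L a' b := by
    intro a a' b ha ha' hb hlt
    obtain ⟨e1, e2⟩ := near_adj ha ha' hlt
    subst e1
    rcases hL.v a b ha'.1 hb.1 with h | h
    · exact h
    · exfalso
      apply hz
      right
      refine ⟨a+1, b, h, e2, ?_, ?_⟩
      · exact hb.2.1 (hB.vb _ _ h).2.2.1
      · exact hb.2.2 (hB.vb _ _ h).2.2.2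
  have step2 : ∀ a b b', near W z.re a → near H z.im b → near H z.im b' → b < b' →
      L a b = L a b' := by
    intro a b b' ha hb hb' hlt
    obtain ⟨e1, e2⟩ := near_adj hb hb' hlt
    subst e1
    rcases hL.h a b ha.1 hb'.1 with h | h
    · exact h
    · exfalso
      apply hz
      left
      refine ⟨a, b+1, h, e2, ?_, ?_⟩
      · exact ha.2.1 (hB.hb _ _ h).1
      · exact ha.2.2 (hB.hb _ _ h).2.1
  have s1 : L a b = L a' b := by
    rcases lt_trichotomy a a' with h | h | h
    · exact step1 _ _ _ ha ha' hb h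
    · rw [h]
    · exact (step1 _ _ _ ha' ha hb h).symm
  have s2 : L a' b = L a' b' := by
    rcases lt_trichotomy b b' with h | h | h
    · exact step2 _ _ _ ha' hb hb' h
    · rw [h]
    · exact (step2 _ _ _ ha' hb' hb h).symm
  exact s1.trans s2

/-- label of a point -/
noncomputable def lab {α : Type*} (W H : ℕ) (L : ℕ → ℕ → α) (z : ℂ) : α := L (ix W z.re) (ix H z.im)

lemma eventually_nearC (W H : ℕ) (z : ℂ) :
    ∀ᶠ z' in 𝓝 z, (∀ a, near W z'.re a → near W z.re a) ∧ (∀ b, near H z'.im b → near H z.im b) := by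
  have h1 := (Complex.continuous_re.tendsto z).eventually (eventually_near W z.re)
  have h2 := (Complex.continuous_im.tendsto z).eventually (eventually_near H z.im)
  exact h1.and h2

lemma lab_const {α : Type*} {L : ℕ → ℕ → α} (hB : Bounded W H HW VW)
    (hL : LabelOK W H HW VW L) {x y : ℂ}
    (hy : y ∈ connectedComponentIn (wallSet HW VW)ᶜ x) : lab W H L y = lab W H L x := by
  letI : TopologicalSpace α := ⊥
  haveI : DiscreteTopology α := ⟨rfl⟩
  have hx : x ∈ (wallSet HW VW)ᶜ := by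
    by_contra h
    rw [connectedComponentIn_eq_empty h] at hy
    exact hy
  have hcont : ContinuousOn (lab W H L) (connectedComponentIn (wallSet HW VW)ᶜ x) := by
    intro z hz
    have hzU := connectedComponentIn_subset _ _ hz
    refine ContinuousAt.continuousWithinAt ?_
    have : (lab W H L) =ᶠ[𝓝 z] fun _ => lab W H L z := by
      filter_upwards [eventually_nearC W H z] with z' hz'
      exact label_core hB hL hzU (hz'.1 _ (near_ix _ _)) (near_ix _ _) (hz'.2 _ (near_ix _ _))
        (near_ix _ _)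
    exact (continuousAt_const).congr this.symm
  exact isPreconnected_connectedComponentIn.constant hcont hy (mem_connectedComponentIn hx)

lemma lab_closure {α : Type*} {L : ℕ → ℕ → α} (hB : Bounded W H HW VW)
    (hL : LabelOK W H HW VW L) {x p : ℂ}
    (hp : p ∈ closure (connectedComponentIn (wallSet HW VW)ᶜ x)) :
    ∃ a b, near W p.re a ∧ near H p.im b ∧ L a b = lab W H L x := by
  rw [mem_closure_iff_frequently] at hp
  obtain ⟨z, hz, hz'⟩ := (hp.and_eventually (eventually_nearC W H p)).exists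
  exact ⟨ix W z.re, ix H z.im, hz'.1 _ (near_ix _ _), hz'.2 _ (near_ix _ _), lab_const hB hL hz⟩

/-- center of a cell -/
noncomputable def ctr (a b : ℕ) : ℂ := ⟨a + 1/2, b + 1/2⟩

/-- open (possibly unbounded) cell -/
def openCell (W H a b : ℕ) : Set ℂ :=
  {z | ((1 ≤ a → (a:ℝ) < z.re) ∧ (a < W → z.re < a + 1)) ∧
    ((1 ≤ b → (b:ℝ) < z.im) ∧ (b < H → z.im < b + 1))}

lemma convex_openCell (W H a b : ℕ) : Convex ℝ (openCell W H a b) := by
  have hre : IsLinearMap ℝ Complex.re := ⟨fun _ _ => rfl, fun _ _ => by simp⟩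
  have him : IsLinearMap ℝ Complex.im := ⟨fun _ _ => rfl, fun _ _ => by simp⟩
  have key : ∀ (P : Prop) (S : Set ℂ), Convex ℝ S → Convex ℝ {z : ℂ | P → z ∈ S} := by
    intro P S hS
    by_cases h : P
    · simpa [h] using hS
    · simpa [h] using convex_univ
  have h1 : Convex ℝ {z : ℂ | 1 ≤ a → z ∈ {z : ℂ | (a:ℝ) < z.re}} :=
    key _ _ (convex_halfSpace_gt hre _)
  have h2 : Convex ℝ {z : ℂ | a < W → z ∈ {z : ℂ | z.re < (a:ℝ) + 1}} :=
    key _ _ (convex_halfSpace_lt hre _)
  have h3 : Convex ℝ {z : ℂ | 1 ≤ b → z ∈ {z : ℂ | (b:ℝ) < z.im}} :=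
    key _ _ (convex_halfSpace_gt him _)
  have h4 : Convex ℝ {z : ℂ | b < H → z ∈ {z : ℂ | z.im < (b:ℝ) + 1}} :=
    key _ _ (convex_halfSpace_lt him _)
  exact (h1.inter h2).inter (h3.inter h4)

lemma ctr_mem (W H a b : ℕ) : ctr a b ∈ openCell W H a b := by
  unfold ctr openCell
  refine ⟨⟨fun _ => ?_, fun _ => ?_⟩, ⟨fun _ => ?_, fun _ => ?_⟩⟩ <;> simp <;> norm_num

lemma openCell_subset (hB : Bounded W H HW VW) {a b : ℕ} (ha : a ≤ W) (hb : b ≤ H) :
    openCell W H a b ⊆ (wallSet HW VW)ᶜ := by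
  rintro z ⟨⟨h1, h2⟩, ⟨h3, h4⟩⟩ hz
  rcases hz with ⟨a', b', hw, e1, e2, e3⟩ | ⟨a', b', hw, e1, e2, e3⟩
  · obtain ⟨q1, q2, q3, q4⟩ := hB.hb _ _ hw
    rw [e1] at h3 h4
    have : b' ≤ b := by
      by_contra hcon
      have h5 := h4 (by omega)
      have h6 : b' < b + 1 := by exact_mod_cast h5
      omega
    have h7 := h3 (by omega)
    have h8 : b < b' := by exact_mod_cast h7
    omega
  · obtain ⟨q1, q2, q3, q4⟩ := hB.vb _ _ hw
    rw [e1] at h1 h2
    have : a' ≤ a := by
      by_contra hcon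
      have h5 := h2 (by omega)
      have h6 : a' < a + 1 := by exact_mod_cast h5
      omega
    have h7 := h1 (by omega)
    have h8 : a < a' := by exact_mod_cast h7
    omega

lemma openSegment_subset_cell {a b : ℕ} {p : ℂ} (ha : near W p.re a) (hb : near H p.im b) :
    openSegment ℝ p (ctr a b) ⊆ openCell W H a b := by
  rintro z ⟨s, t, hs, ht, hst, rfl⟩
  obtain ⟨ha1, ha2, ha3⟩ := ha
  obtain ⟨hb1, hb2, hb3⟩ := hb
  unfold openCell ctr
  simp only [Complex.real_smul, Complex.add_re, Complex.mul_re, Complex.ofReal_re,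
    Complex.ofReal_im, Complex.add_im, Complex.mul_im, zero_mul, sub_zero, add_zero,
    Set.mem_setOf_eq]
  have hs' : s = 1 - t := by linarith
  subst hs'
  refine ⟨⟨fun h => ?_, fun h => ?_⟩, ⟨fun h => ?_, fun h => ?_⟩⟩
  · have := ha2 h; nlinarith
  · have := ha3 h; nlinarith
  · have := hb2 h; nlinarith
  · have := hb3 h; nlinarith

lemma mem_closure_cell {a b : ℕ} {p : ℂ} (ha : near W p.re a) (hb : near H p.im b) :
    p ∈ closure (openCell W H a b) := by
  have h1 : p ∈ segment ℝ p (ctr a b) := left_mem_segment _ _ _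
  rw [← closure_openSegment] at h1
  exact closure_mono (openSegment_subset_cell ha hb) h1

lemma cell_subset_comp (hB : Bounded W H HW VW) {a b : ℕ} (ha : a ≤ W) (hb : b ≤ H) :
    openCell W H a b ⊆ connectedComponentIn (wallSet HW VW)ᶜ (ctr a b) :=
  (convex_openCell W H a b).isPreconnected.subset_connectedComponentIn (ctr_mem W H a b)
    (openCell_subset hB ha hb)

lemma mem_closure_comp (hB : Bounded W H HW VW) {a b : ℕ} {p : ℂ}
    (ha : near W p.re a) (hb : near H p.im b) :
    p ∈ closure (connectedComponentIn (wallSet HW VW)ᶜ (ctr a b)) :=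
  closure_mono (cell_subset_comp hB ha.1 hb.1) (mem_closure_cell ha hb)

lemma comp_eq (hB : Bounded W H HW VW) {a b : ℕ} {z : ℂ} (hz : z ∈ (wallSet HW VW)ᶜ)
    (ha : near W z.re a) (hb : near H z.im b) :
    connectedComponentIn (wallSet HW VW)ᶜ z = connectedComponentIn (wallSet HW VW)ᶜ (ctr a b) := by
  have hT : IsPreconnected (insert z (openCell W H a b)) := by
    refine (convex_openCell W H a b).isPreconnected.subset_closure (subset_insert _ _) ?_
    exact insert_subset (mem_closure_cell ha hb) subset_closure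
  have hTU : insert z (openCell W H a b) ⊆ (wallSet HW VW)ᶜ :=
    insert_subset hz (openCell_subset hB ha.1 hb.1)
  have h1 := hT.subset_connectedComponentIn (mem_insert _ _) hTU
  exact connectedComponentIn_eq (h1 (mem_insert_of_mem _ (ctr_mem W H a b)))

lemma comp_eq_v (hB : Bounded W H HW VW) {a b : ℕ} (ha : a + 1 ≤ W) (hb : b ≤ H)
    (hw : ¬ VW (a+1) b) :
    connectedComponentIn (wallSet HW VW)ᶜ (ctr a b)
      = connectedComponentIn (wallSet HW VW)ᶜ (ctr (a+1) b) := by
  set m : ℂ := ⟨(a:ℝ)+1, b+1/2⟩ with hm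
  have hmU : m ∈ (wallSet HW VW)ᶜ := by
    rintro (⟨a', b', hw', e1, e2, e3⟩ | ⟨a', b', hw', e1, e2, e3⟩)
    · simp only [hm] at e1
      have h1 : ((2 * b + 1 : ℕ) : ℝ) = ((2 * b' : ℕ) : ℝ) := by push_cast; linarith
      have h2 : 2 * b + 1 = 2 * b' := by exact_mod_cast h1
      omega
    · simp only [hm] at e1 e2 e3
      have h1 : a + 1 = a' := by exact_mod_cast e1
      have h2 : (b':ℝ) < b + 1 := by linarith
      have h3 : (b:ℝ) < b' + 1 := by linarith
      have h2' : b' < b + 1 := by exact_mod_cast h2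
      have h3' : b < b' + 1 := by exact_mod_cast h3
      have h4 : b = b' := by omega
      subst h1; subst h4
      exact hw hw'
  have n1 : near W m.re a := ⟨by omega, fun _ => by simp only [hm]; linarith,
    fun _ => by simp only [hm]; linarith⟩
  have n2 : near W m.re (a+1) := ⟨ha, fun _ => by simp only [hm]; push_cast; linarith,
    fun _ => by simp only [hm]; push_cast; linarith⟩
  have n3 : near H m.im b := ⟨hb, fun _ => by simp only [hm]; linarith,
    fun _ => by simp only [hm]; linarith⟩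
  rw [← comp_eq hB hmU n1 n3, ← comp_eq hB hmU n2 n3]

lemma comp_eq_h (hB : Bounded W H HW VW) {a b : ℕ} (ha : a ≤ W) (hb : b + 1 ≤ H)
    (hw : ¬ HW a (b+1)) :
    connectedComponentIn (wallSet HW VW)ᶜ (ctr a b)
      = connectedComponentIn (wallSet HW VW)ᶜ (ctr a (b+1)) := by
  set m : ℂ := ⟨(a:ℝ)+1/2, b+1⟩ with hm
  have hmU : m ∈ (wallSet HW VW)ᶜ := by
    rintro (⟨a', b', hw', e1, e2, e3⟩ | ⟨a', b', hw', e1, e2, e3⟩)
    · simp only [hm] at e1 e2 e3
      have h1 : b + 1 = b' := by exact_mod_cast e1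
      have h2 : (a':ℝ) < a + 1 := by linarith
      have h3 : (a:ℝ) < a' + 1 := by linarith
      have h2' : a' < a + 1 := by exact_mod_cast h2
      have h3' : a < a' + 1 := by exact_mod_cast h3
      have h4 : a = a' := by omega
      subst h1; subst h4
      exact hw hw'
    · simp only [hm] at e1
      have h1 : ((2 * a + 1 : ℕ) : ℝ) = ((2 * a' : ℕ) : ℝ) := by push_cast; linarith
      have h2 : 2 * a + 1 = 2 * a' := by exact_mod_cast h1
      omega
  have n1 : near H m.im b := ⟨by omega, fun _ => by simp only [hm]; linarith,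
    fun _ => by simp only [hm]; linarith⟩
  have n2 : near H m.im (b+1) := ⟨hb, fun _ => by simp only [hm]; push_cast; linarith,
    fun _ => by simp only [hm]; push_cast; linarith⟩
  have n3 : near W m.re a := ⟨ha, fun _ => by simp only [hm]; linarith,
    fun _ => by simp only [hm]; linarith⟩
  rw [← comp_eq hB hmU n3 n1, ← comp_eq hB hmU n3 n2]

end walls

end Run7.h890
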