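import Mathlib
import Pool.Agent.Run7.h890.Curve
import Pool.Agent.Run7.h890.Grid

set_option autoImplicit false

namespace Run7.h890

open Set Topology Filter

/-- lattice point with code `u = 32*a+b` -/
noncomputable def emb (u : ℕ) : ℂ := ⟨((u / 32 : ℕ) : ℝ), ((u % 32 : ℕ) : ℝ)⟩

@[simp] lemma emb_re (u : ℕ) : (emb u).re = ((u / 32 : ℕ) : ℝ) := rfl
@[simp] lemma emb_im (u : ℕ) : (emb u).im = ((u % 32 : ℕ) : ℝ) := rfl

lemma emb_injective : Function.Injective emb := by
  intro u v h
  have h1 := congrArg Complex.re h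
  have h2 := congrArg Complex.im h
  simp only [emb_re, emb_im, Nat.cast_inj] at h1 h2
  omega

/-- the set of points of the unit edge with code `e` -/
def edgeSet (e : ℕ) : Set ℂ :=
  if e % 2 = 1 then vEdge (e / 2 / 32) (e / 2 % 32) else hEdge (e / 2 / 32) (e / 2 % 32)

/-- `u` and `v` are codes of neighbouring lattice points -/
def Adj (u v : ℕ) : Prop :=
  (v = u + 1 ∧ u % 32 < 31) ∨ (u = v + 1 ∧ v % 32 < 31) ∨ v = u + 32 ∨ u = v + 32

/-- code of the edge joining two neighbouring lattice points -/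
def ecode (u v : ℕ) : ℕ :=
  if v = u + 1 then 2 * u + 1 else if u = v + 1 then 2 * v + 1 else
    if v = u + 32 then 2 * u else 2 * v

lemma adj_cases {u v : ℕ} (h : Adj u v) :
    (∃ a b : ℕ, emb u = ⟨a, b⟩ ∧ emb v = ⟨a, b + 1⟩ ∧ edgeSet (ecode u v) = vEdge a b) ∨
    (∃ a b : ℕ, emb v = ⟨a, b⟩ ∧ emb u = ⟨a, b + 1⟩ ∧ edgeSet (ecode u v) = vEdge a b) ∨
    (∃ a b : ℕ, emb u = ⟨a, b⟩ ∧ emb v = ⟨a + 1, b⟩ ∧ edgeSet (ecode u v) = hEdge a b) ∨
    (∃ a b : ℕ, emb v = ⟨a, b⟩ ∧ emb u = ⟨a + 1, b⟩ ∧ edgeSet (ecode u v) = hEdge a b) := by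
  rcases h with ⟨h, h'⟩ | ⟨h, h'⟩ | h | h
  · left
    refine ⟨u / 32, u % 32, rfl, ?_, ?_⟩
    · have h1 : v / 32 = u / 32 := by omega
      have h2 : v % 32 = u % 32 + 1 := by omega
      unfold emb; rw [h1, h2]; push_cast; rfl
    · have hec : ecode u v = 2 * u + 1 := by unfold ecode; rw [if_pos h]
      have h1 : (2 * u + 1) % 2 = 1 := by omega
      have h2 : (2 * u + 1) / 2 = u := by omega
      unfold edgeSet
      rw [hec, if_pos h1, h2]
  · right; left
    refine ⟨v / 32, v % 32, rfl, ?_, ?_⟩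
    · have h1 : u / 32 = v / 32 := by omega
      have h2 : u % 32 = v % 32 + 1 := by omega
      unfold emb; rw [h1, h2]; push_cast; rfl
    · have hec : ecode u v = 2 * v + 1 := by unfold ecode; rw [if_neg (by omega), if_pos h]
      have h1 : (2 * v + 1) % 2 = 1 := by omega
      have h2 : (2 * v + 1) / 2 = v := by omega
      unfold edgeSet
      rw [hec, if_pos h1, h2]
  · right; right; left
    refine ⟨u / 32, u % 32, rfl, ?_, ?_⟩
    · have h1 : v / 32 = u / 32 + 1 := by omega
      have h2 : v % 32 = u % 32 := by omega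
      unfold emb; rw [h1, h2]; push_cast; rfl
    · have hec : ecode u v = 2 * u := by
        unfold ecode; rw [if_neg (by omega), if_neg (by omega), if_pos h]
      have h1 : ¬ (2 * u) % 2 = 1 := by omega
      have h2 : (2 * u) / 2 = u := by omega
      unfold edgeSet
      rw [hec, if_neg h1, h2]
  · right; right; right
    refine ⟨v / 32, v % 32, rfl, ?_, ?_⟩
    · have h1 : u / 32 = v / 32 + 1 := by omega
      have h2 : u % 32 = v % 32 := by omega
      unfold emb; rw [h1, h2]; push_cast; rfl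
    · have hec : ecode u v = 2 * v := by
        unfold ecode; rw [if_neg (by omega), if_neg (by omega), if_neg (by omega)]
      have h1 : ¬ (2 * v) % 2 = 1 := by omega
      have h2 : (2 * v) / 2 = v := by omega
      unfold edgeSet
      rw [hec, if_neg h1, h2]

/-- points of an edge are the convex combinations of its endpoints -/
lemma mem_edge_iff {u v : ℕ} (h : Adj u v) (z : ℂ) :
    z ∈ edgeSet (ecode u v) ↔ ∃ s : ℝ, 0 ≤ s ∧ s ≤ 1 ∧ z = emb u + (s:ℂ) * (emb v - emb u) := by
  rcases adj_cases h with ⟨a, b, h1, h2, h3⟩ | ⟨a, b, h1, h2, h3⟩ | ⟨a, b, h1, h2, h3⟩ |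
    ⟨a, b, h1, h2, h3⟩ <;> rw [h1, h2, h3]
  · constructor
    · rintro ⟨e1, e2, e3⟩
      refine ⟨z.im - b, by linarith, by linarith, ?_⟩
      apply Complex.ext <;> simp [e1]
    · rintro ⟨s, hs0, hs1, rfl⟩
      refine ⟨by simp, by simp [hs0], by simp [hs1]⟩
  · constructor
    · rintro ⟨e1, e2, e3⟩
      refine ⟨b + 1 - z.im, by linarith, by linarith, ?_⟩
      apply Complex.ext <;> simp [e1]
    · rintro ⟨s, hs0, hs1, rfl⟩
      refine ⟨by simp, by simp; linarith, by simp; linarith⟩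
  · constructor
    · rintro ⟨e1, e2, e3⟩
      refine ⟨z.re - a, by linarith, by linarith, ?_⟩
      apply Complex.ext <;> simp [e1]
    · rintro ⟨s, hs0, hs1, rfl⟩
      refine ⟨by simp, by simp [hs0], by simp [hs1]⟩
  · constructor
    · rintro ⟨e1, e2, e3⟩
      refine ⟨a + 1 - z.re, by linarith, by linarith, ?_⟩
      apply Complex.ext <;> simp [e1]
    · rintro ⟨s, hs0, hs1, rfl⟩
      refine ⟨by simp, by simp; linarith, by simp; linarith⟩

/-- integer point -/
def IsLat (z : ℂ) : Prop := ∃ a b : ℤ, z = ⟨a, b⟩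

lemma isLat_of {z : ℂ} (a b : ℕ) (h1 : z.re = a) (h2 : z.im = b) : IsLat z := by
  refine ⟨(a : ℤ), (b : ℤ), ?_⟩
  apply Complex.ext
  · rw [h1]; exact (Int.cast_natCast a).symm
  · rw [h2]; exact (Int.cast_natCast b).symm

lemma isLat_emb (u : ℕ) : IsLat (emb u) := isLat_of (u / 32) (u % 32) rfl rfl

lemma unit_int {s : ℝ} {n : ℤ} (h0 : 0 ≤ s) (h1 : s < 1) (h : s = n) : s = 0 := by
  rw [h] at h0 h1
  have h0' : 0 ≤ n := by exact_mod_cast h0
  have h1' : n < 1 := by exact_mod_cast h1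
  have : n = 0 := by omega
  rw [h, this]; simp

lemma lat_param {u v : ℕ} (h : Adj u v) {s : ℝ} (hs0 : 0 ≤ s) (hs1 : s < 1)
    (hl : IsLat (emb u + (s:ℂ) * (emb v - emb u))) : s = 0 := by
  obtain ⟨c, d, hcd⟩ := hl
  have hre := congrArg Complex.re hcd
  have him := congrArg Complex.im hcd
  rcases adj_cases h with ⟨a, b, h1, h2, h3⟩ | ⟨a, b, h1, h2, h3⟩ | ⟨a, b, h1, h2, h3⟩ |
    ⟨a, b, h1, h2, h3⟩ <;> rw [h1, h2] at hre him <;> simp at hre him
  · exact unit_int (n := d - b) hs0 hs1 (by push_cast; linarith)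
  · exact unit_int (n := b + 1 - d) hs0 hs1 (by push_cast; linarith)
  · exact unit_int (n := c - a) hs0 hs1 (by push_cast; linarith)
  · exact unit_int (n := a + 1 - c) hs0 hs1 (by push_cast; linarith)

lemma emb_ne_of_adj {u v : ℕ} (h : Adj u v) : emb v - emb u ≠ 0 := by
  intro h0
  have h1 : emb v = emb u := sub_eq_zero.1 h0
  have h2 := emb_injective h1
  unfold Adj at h
  omega

/-- an integer point on an edge is one of the two endpoints -/
lemma lat_edge {u v : ℕ} (h : Adj u v) {z : ℂ} (hz : z ∈ edgeSet (ecode u v)) (hl : IsLat z) :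
    z = emb u ∨ z = emb v := by
  obtain ⟨s, hs0, hs1, rfl⟩ := (mem_edge_iff h z).1 hz
  rcases lt_or_eq_of_le hs1 with h1 | h1
  · left
    have := lat_param h hs0 h1 hl
    rw [this]; simp
  · right; rw [h1]; simp

/-- two different edges meet in integer points only -/
lemma edge_edge {e e' : ℕ} (hne : e ≠ e') {z : ℂ} (hz : z ∈ edgeSet e) (hz' : z ∈ edgeSet e') :
    IsLat z := by
  unfold edgeSet at hz hz'
  by_cases h : e % 2 = 1 <;> by_cases h' : e' % 2 = 1
  · rw [if_pos h] at hz; rw [if_pos h'] at hz'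
    obtain ⟨a1, a2, a3⟩ := hz
    obtain ⟨b1, b2, b3⟩ := hz'
    have k1 : e / 2 / 32 = e' / 2 / 32 := by
      have := a1.symm.trans b1; exact_mod_cast this
    have k2 : e / 2 % 32 ≠ e' / 2 % 32 := by omega
    rcases lt_or_gt_of_ne k2 with k | k
    · have k' : ((e / 2 % 32 : ℕ) : ℝ) + 1 ≤ ((e' / 2 % 32 : ℕ) : ℝ) := by exact_mod_cast k
      exact isLat_of (e / 2 / 32) (e' / 2 % 32) a1 (by linarith)
    · have k' : ((e' / 2 % 32 : ℕ) : ℝ) + 1 ≤ ((e / 2 % 32 : ℕ) : ℝ) := by exact_mod_cast k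
      exact isLat_of (e / 2 / 32) (e / 2 % 32) a1 (by linarith)
  · rw [if_pos h] at hz; rw [if_neg h'] at hz'
    exact isLat_of (e / 2 / 32) (e' / 2 % 32) hz.1 hz'.1
  · rw [if_neg h] at hz; rw [if_pos h'] at hz'
    exact isLat_of (e' / 2 / 32) (e / 2 % 32) hz'.1 hz.1
  · rw [if_neg h] at hz; rw [if_neg h'] at hz'
    obtain ⟨a1, a2, a3⟩ := hz
    obtain ⟨b1, b2, b3⟩ := hz'
    have k1 : e / 2 % 32 = e' / 2 % 32 := by
      have := a1.symm.trans b1; exact_mod_cast this
    have k2 : e / 2 / 32 ≠ e' / 2 / 32 := by omega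
    rcases lt_or_gt_of_ne k2 with k | k
    · have k' : ((e / 2 / 32 : ℕ) : ℝ) + 1 ≤ ((e' / 2 / 32 : ℕ) : ℝ) := by exact_mod_cast k
      exact isLat_of (e' / 2 / 32) (e / 2 % 32) (by linarith) a1
    · have k' : ((e' / 2 / 32 : ℕ) : ℝ) + 1 ≤ ((e / 2 / 32 : ℕ) : ℝ) := by exact_mod_cast k
      exact isLat_of (e / 2 / 32) (e / 2 % 32) (by linarith) a1

/-- edges of the closed path through the points of the list (closing up at `h`) -/
def edgesL (h : ℕ) : List ℕ → List ℕ
  | [] => []
  | [x] => [ecode x h]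
  | x :: y :: r => ecode x y :: edgesL h (y :: r)

lemma edgesL_length (h : ℕ) (l : List ℕ) : (edgesL h l).length = l.length := by
  induction l with
  | nil => rfl
  | cons x r ih =>
    cases r with
    | nil => rfl
    | cons y r => simp [edgesL] at ih ⊢; exact ih

lemma edgesL_get (h : ℕ) (l : List ℕ) : ∀ k, (hk : k < l.length) →
    (edgesL h l)[k]'(by rw [edgesL_length]; exact hk) = ecode (l.getD k h) (l.getD (k+1) h) := by
  induction l with
  | nil => intro k hk; simp at hk
  | cons x r ih =>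
    cases r with
    | nil =>
      intro k hk
      have : k = 0 := by simpa using hk
      subst this
      simp [edgesL]
    | cons y r =>
      intro k hk
      cases k with
      | zero => simp [edgesL]
      | succ k =>
        have := ih k (by simpa using hk)
        simpa [edgesL] using this

/-- consecutive points of the list are neighbours -/
def StepsOK (h : ℕ) (l : List ℕ) : Prop := ∀ k < l.length, Adj (l.getD k h) (l.getD (k+1) h)

/-- A closed lattice path gives a Jordan curve. -/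
theorem lattice_curve (h : ℕ) (l : List ℕ) (hl : 0 < l.length) (hh : l.getD 0 h = h)
    (hstep : StepsOK h l) (hnd : l.Nodup) (hend : (edgesL h l).Nodup) :
    ∃ γ : Circle → ℂ, Continuous γ ∧ Function.Injective γ ∧
      Set.range γ = {z | ∃ e ∈ edgesL h l, z ∈ edgeSet e} := by
  obtain ⟨γ, h1, h2, h3⟩ := exists_curve l.length hl (fun k => emb (l.getD k h)) (by
      simp only [hh]; rw [List.getD_eq_default _ _ (le_refl _)]) (by
      intro k k' hk hk' s t hs0 hs1 ht0 ht1 heq
      have m1 : emb (l.getD k h) + (s:ℂ) * (emb (l.getD (k+1) h) - emb (l.getD k h)) ∈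
          edgeSet (ecode (l.getD k h) (l.getD (k+1) h)) :=
        (mem_edge_iff (hstep k hk) _).2 ⟨s, hs0, hs1.le, rfl⟩
      have m2 : emb (l.getD k h) + (s:ℂ) * (emb (l.getD (k+1) h) - emb (l.getD k h)) ∈
          edgeSet (ecode (l.getD k' h) (l.getD (k'+1) h)) := by
        rw [heq]
        exact (mem_edge_iff (hstep k' hk') _).2 ⟨t, ht0, ht1.le, rfl⟩
      by_cases hkk : k = k'
      · subst hkk
        refine ⟨rfl, ?_⟩
        have h4 := add_left_cancel heq
        have h5 := mul_right_cancel₀ (emb_ne_of_adj (hstep k hk)) h4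
        exact_mod_cast h5
      · exfalso
        have hne : ecode (l.getD k h) (l.getD (k+1) h) ≠ ecode (l.getD k' h) (l.getD (k'+1) h) := by
          rw [← edgesL_get h l k hk, ← edgesL_get h l k' hk']
          intro hcon
          exact hkk ((List.Nodup.getElem_inj_iff hend).1 hcon)
        have hlat := edge_edge hne m1 m2
        have s0 := lat_param (hstep k hk) hs0 hs1 hlat
        rw [heq] at hlat
        have t0 := lat_param (hstep k' hk') ht0 ht1 hlat
        rw [s0, t0] at heq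
        simp only [Complex.ofReal_zero, zero_mul, add_zero] at heq
        have h6 := emb_injective heq
        rw [List.getD_eq_getElem _ _ hk, List.getD_eq_getElem _ _ hk'] at h6
        exact hkk ((List.Nodup.getElem_inj_iff hnd).1 h6))
  refine ⟨γ, h1, h2, ?_⟩
  rw [h3]
  ext z
  constructor
  · rintro ⟨k, hk, s, hs0, hs1, rfl⟩
    refine ⟨ecode (l.getD k h) (l.getD (k+1) h), ?_, ?_⟩
    · rw [← edgesL_get h l k hk]; exact List.getElem_mem _
    · exact (mem_edge_iff (hstep k hk) _).2 ⟨s, hs0, hs1, rfl⟩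
  · rintro ⟨e, he, hz⟩
    obtain ⟨k, hk, rfl⟩ := List.getElem_of_mem he
    have hk' : k < l.length := by rwa [edgesL_length] at hk
    rw [edgesL_get h l k hk'] at hz
    obtain ⟨s, hs0, hs1, hs2⟩ := (mem_edge_iff (hstep k hk') z).1 hz
    exact ⟨k, hk', s, hs0, hs1, hs2⟩

/-- points of the list lie on the curve -/
lemma emb_mem {h : ℕ} {l : List ℕ} (hstep : StepsOK h l) {u : ℕ} (hu : u ∈ l) :
    ∃ e ∈ edgesL h l, emb u ∈ edgeSet e := by
  obtain ⟨k, hk, rfl⟩ := List.getElem_of_mem hu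
  refine ⟨ecode (l.getD k h) (l.getD (k+1) h), ?_, ?_⟩
  · rw [← edgesL_get h l k hk]; exact List.getElem_mem _
  · refine (mem_edge_iff (hstep k hk) _).2 ⟨0, le_refl _, zero_le_one, ?_⟩
    rw [List.getD_eq_getElem _ _ hk]; simp

/-- integer points on the curve are points of the list -/
lemma lat_mem {h : ℕ} {l : List ℕ} (hh : h ∈ l) (hstep : StepsOK h l) {z : ℂ} {e : ℕ}
    (he : e ∈ edgesL h l) (hz : z ∈ edgeSet e) (hlat : IsLat z) : ∃ u ∈ l, z = emb u := by
  obtain ⟨k, hk, rfl⟩ := List.getElem_of_mem he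
  have hk' : k < l.length := by rwa [edgesL_length] at hk
  rw [edgesL_get h l k hk'] at hz
  have key : ∀ j, l.getD j h ∈ l := by
    intro j
    rcases lt_or_ge j l.length with hj | hj
    · rw [List.getD_eq_getElem _ _ hj]; exact List.getElem_mem _
    · rw [List.getD_eq_default _ _ hj]; exact hh
  rcases lat_edge (hstep k hk') hz hlat with h1 | h1
  · exact ⟨_, key k, h1⟩
  · exact ⟨_, key (k+1), h1⟩

end Run7.h890
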