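import Mathlib
import Pool.Agent.Run7.h890.Lattice
import Pool.Agent.Run7.h890.Data

set_option autoImplicit false

namespace Run7.h890

/-! ### Boolean checks and their meaning -/

def memB (x : ℕ) : List ℕ → Bool
  | [] => false
  | y :: ys => Nat.beq x y || memB x ys

lemma memB_iff {x : ℕ} {l : List ℕ} : memB x l = true ↔ x ∈ l := by
  induction l with
  | nil => simp [memB]
  | cons y ys ih => simp [memB, ih, Nat.beq_eq]

def nodupB : List ℕ → Bool
  | [] => true
  | x :: xs => !(memB x xs) && nodupB xs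

lemma nodupB_sound {l : List ℕ} (h : nodupB l = true) : l.Nodup := by
  induction l with
  | nil => exact List.nodup_nil
  | cons y ys ih =>
    simp only [nodupB, Bool.and_eq_true, Bool.not_eq_true'] at h
    refine List.nodup_cons.2 ⟨?_, ih h.2⟩
    intro hy
    rw [← memB_iff, h.1] at hy
    exact absurd hy (by decide)

def adjB (u v : ℕ) : Bool :=
  (Nat.beq v (u+1) && Nat.ble (u % 32) 30) || ((Nat.beq u (v+1) && Nat.ble (v % 32) 30) ||
    (Nat.beq v (u+32) || Nat.beq u (v+32)))

lemma adjB_sound {u v : ℕ} (h : adjB u v = true) : Adj u v := by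
  simp only [adjB, Bool.or_eq_true, Bool.and_eq_true, Nat.beq_eq, Nat.ble_eq] at h
  unfold Adj
  omega

def stepsB (h : ℕ) : List ℕ → Bool
  | [] => true
  | [x] => adjB x h
  | x :: y :: r => adjB x y && stepsB h (y :: r)

lemma stepsB_sound {h : ℕ} {l : List ℕ} (hs : stepsB h l = true) : StepsOK h l := by
  induction l with
  | nil => intro k hk; simp at hk
  | cons x r ih =>
    cases r with
    | nil =>
      intro k hk
      have : k = 0 := by simpa using hk
      subst this
      simpa using adjB_sound hs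
    | cons y r =>
      simp only [stepsB, Bool.and_eq_true] at hs
      intro k hk
      cases k with
      | zero => simpa using adjB_sound hs.1
      | succ k =>
        have := ih hs.2 k (by simpa using hk)
        simpa using this

def listEqB : List ℕ → List ℕ → Bool
  | [], [] => true
  | x :: xs, y :: ys => Nat.beq x y && listEqB xs ys
  | _, _ => false

lemma listEqB_sound : ∀ {l l' : List ℕ}, listEqB l l' = true → l = l'
  | [], [], _ => rfl
  | x :: xs, y :: ys, h => by
    simp only [listEqB, Bool.and_eq_true, Nat.beq_eq] at h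
    rw [h.1, listEqB_sound h.2]
  | [], y :: ys, h => by simp [listEqB] at h
  | x :: xs, [], h => by simp [listEqB] at h

def allR (n : ℕ) (f : ℕ → Bool) : Bool := (List.range n).all f

lemma allR_sound {n : ℕ} {f : ℕ → Bool} (h : allR n f = true) : ∀ k < n, f k = true := by
  intro k hk
  unfold allR at h
  rw [List.all_eq_true] at h
  exact h k (List.mem_range.2 hk)

def anyR (n : ℕ) (f : ℕ → Bool) : Bool := (List.range n).any f

lemma anyR_sound {n : ℕ} {f : ℕ → Bool} (h : anyR n f = true) : ∃ k < n, f k = true := by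
  unfold anyR at h
  rw [List.any_eq_true] at h
  obtain ⟨k, hk, hf⟩ := h
  exact ⟨k, List.mem_range.1 hk, hf⟩

/-! ### tables -/

def lb (a b : ℕ) : ℕ := (labT >>> (8 * (32 * a + b))) % 256
def sd (j a b : ℕ) : ℕ := (sideT >>> (10 * (32 * a + b) + j)) % 2
def rk (a b : ℕ) : ℕ := (rankT >>> (8 * (32 * a + b))) % 256
def dr (a b : ℕ) : ℕ := (dirT >>> (3 * (32 * a + b))) % 8
def rt (l : ℕ) : ℕ := (rootT >>> (10 * l)) % 1024
def wb (e : ℕ) : ℕ := (wallT >>> e) % 2

def hd (i : ℕ) : ℕ := (P i).headD 0

/-- bounds for points -/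
def ptB (u : ℕ) : Bool :=
  Nat.ble 1 (u / 32) && (Nat.ble (u / 32) 25 && (Nat.ble 1 (u % 32) && Nat.ble (u % 32) 25))

/-- bounds for edges -/
def edB (e : ℕ) : Bool :=
  match e % 2 with
  | 0 => Nat.ble 1 (e/2/32) && (Nat.ble (e/2/32 + 1) 25 &&
      (Nat.ble 1 (e/2%32) && Nat.ble (e/2%32) 25))
  | _ => Nat.ble 1 (e/2/32) && (Nat.ble (e/2/32) 25 &&
      (Nat.ble 1 (e/2%32) && Nat.ble (e/2%32 + 1) 25))

def chkCurve (i : ℕ) : Bool :=
  (Nat.ble 1 (P i).length && stepsB (hd i) (P i)) && ((nodupB (P i) && nodupB (E i)) &&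
    (listEqB (edgesL (hd i) (P i)) (E i) && ((P i).all ptB && (E i).all edB)))

def comm (i j : ℕ) : List ℕ := (P i).filter (fun p => memB p (P j))

def chkPair (i j : ℕ) : Bool :=
  Nat.beq (comm i j).length 2 && ((E i).all (fun e => !(memB e (E j))) &&
    ((E i).any (fun e => Nat.beq (sd j (e/2/32) (e/2%32)) 0) &&
      (E i).any (fun e => Nat.beq (sd j (e/2/32) (e/2%32)) 1)))

def chkTriple (i j k : ℕ) : Bool := (comm i j).all (fun p => !(memB p (P k)))

def chkSide (j : ℕ) : Bool :=
  allR 26 fun a => allR 26 fun b =>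
    (Nat.beq a 25 || (Nat.beq (sd j a b) (sd j (a+1) b) || memB (2*(32*(a+1)+b)+1) (E j))) &&
    (Nat.beq b 25 || (Nat.beq (sd j a b) (sd j a (b+1)) || memB (2*(32*a+(b+1))) (E j)))

def memE (e : ℕ) : Bool := anyR 10 fun i => memB e (E i)

def chkLab : Bool :=
  allR 26 fun a => allR 26 fun b =>
    (Nat.ble (lb a b) 91) &&
    ((Nat.beq a 25 || (Nat.beq (lb a b) (lb (a+1) b) || memE (2*(32*(a+1)+b)+1))) &&
    (Nat.beq b 25 || (Nat.beq (lb a b) (lb a (b+1)) || memE (2*(32*a+(b+1))))))

def chkWall : Bool := allR 10 fun i => (E i).all fun e => Nat.beq (wb e) 1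

/-- the step towards the root of the face -/
def chkDir (a b : ℕ) : Bool :=
  match dr a b with
  | 0 => Nat.beq (rt (lb a b)) (32*a+b)
  | 1 => Nat.ble 1 a && (Nat.beq (lb (a-1) b) (lb a b) && (Nat.blt (rk (a-1) b) (rk a b) &&
      Nat.beq (wb (2*(32*a+b)+1)) 0))
  | 2 => Nat.ble (a+1) 25 && (Nat.beq (lb (a+1) b) (lb a b) && (Nat.blt (rk (a+1) b) (rk a b) &&
      Nat.beq (wb (2*(32*(a+1)+b)+1)) 0))
  | 3 => Nat.ble 1 b && (Nat.beq (lb a (b-1)) (lb a b) && (Nat.blt (rk a (b-1)) (rk a b) &&
      Nat.beq (wb (2*(32*a+b))) 0))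
  | _ => Nat.ble (b+1) 25 && (Nat.beq (lb a (b+1)) (lb a b) && (Nat.blt (rk a (b+1)) (rk a b) &&
      Nat.beq (wb (2*(32*a+(b+1)))) 0))

def adjLab (l u : ℕ) : Bool :=
  (Nat.beq (lb (u/32) (u%32)) l || Nat.beq (lb (u/32-1) (u%32)) l) ||
    (Nat.beq (lb (u/32) (u%32-1)) l || Nat.beq (lb (u/32-1) (u%32-1)) l)

def chkX : Bool :=
  nodupB X && (X.all ptB && ((X.all fun u => anyR 10 fun i => memB u (P i) &&
    anyR 10 fun j => !(Nat.beq i j) && memB u (P j)) &&
    allR 10 fun i => allR 10 fun j => Nat.beq i j || (comm i j).all fun u => memB u X))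

def chkT : Bool :=
  allR 92 fun l => !(Nat.beq (X.filter (adjLab l)).length 3) || memB l T

theorem ok_curve : allR 10 chkCurve = true := by decide +kernel

theorem ok_pair : (allR 10 fun i => allR 10 fun j => Nat.beq i j || chkPair i j) = true := by
  decide +kernel

theorem ok_triple : (allR 10 fun i => allR 10 fun j => Nat.beq i j || allR 10 fun k =>
    (Nat.beq i k || Nat.beq j k) || chkTriple i j k) = true := by
  decide +kernel

theorem ok_side : allR 10 chkSide = true := by decide +kernel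

theorem ok_lab : chkLab = true := by decide +kernel

theorem ok_wall : chkWall = true := by decide +kernel

theorem ok_dir : (allR 26 fun a => allR 26 fun b => chkDir a b) = true := by decide +kernel

theorem ok_X : chkX = true := by decide +kernel

theorem ok_T : chkT = true := by decide +kernel

theorem ok_T_length : T.length = 8 := by decide +kernel

end Run7.h890
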