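import Mathlib
import Pool.Agent.Run7.h890.Check

set_option autoImplicit false

namespace Run7.h890

open Set Topology Filter

/-! ### the curves -/

lemma curve_facts {i : ℕ} (hi : i < 10) :
    0 < (P i).length ∧ StepsOK (hd i) (P i) ∧ (P i).Nodup ∧ (E i).Nodup ∧
      edgesL (hd i) (P i) = E i ∧ (∀ u ∈ P i, ptB u = true) ∧ (∀ e ∈ E i, edB e = true) := by
  have h := allR_sound ok_curve i hi
  simp only [chkCurve, Bool.and_eq_true, Nat.ble_eq, List.all_eq_true] at h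
  obtain ⟨⟨h1, h2⟩, ⟨h3, h4⟩, h5, h6, h7⟩ := h
  exact ⟨h1, stepsB_sound h2, nodupB_sound h3, nodupB_sound h4, listEqB_sound h5, h6, h7⟩

lemma hd_getD {i : ℕ} (hi : i < 10) : (P i).getD 0 (hd i) = hd i := by
  have h := (curve_facts hi).1
  unfold hd
  cases hP : P i with
  | nil => rw [hP] at h; simp at h
  | cons x xs => simp

lemma hd_mem {i : ℕ} (hi : i < 10) : hd i ∈ P i := by
  have h := (curve_facts hi).1
  unfold hd
  cases hP : P i with
  | nil => rw [hP] at h; simp at h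
  | cons x xs => simp

theorem exists_gamma (i : Fin 10) :
    ∃ γ : Circle → ℂ, Continuous γ ∧ Function.Injective γ ∧
      Set.range γ = {z | ∃ e ∈ E i, z ∈ edgeSet e} := by
  obtain ⟨h1, h2, h3, h4, h5, h6, h7⟩ := curve_facts i.2
  have := lattice_curve (hd i) (P i) h1 (hd_getD i.2) h2 h3 (by rw [h5]; exact h4)
  rwa [h5] at this

/-- the range of the `i`-th curve -/
def K (i : ℕ) : Set ℂ := {z | ∃ e ∈ E i, z ∈ edgeSet e}

lemma emb_mem_K {i : ℕ} (hi : i < 10) {u : ℕ} (hu : u ∈ P i) : emb u ∈ K i := by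
  obtain ⟨h1, h2, h3, h4, h5, h6, h7⟩ := curve_facts hi
  have := emb_mem h2 hu
  rwa [h5] at this

lemma lat_mem_K {i : ℕ} (hi : i < 10) {z : ℂ} (hz : z ∈ K i) (hl : IsLat z) :
    ∃ u ∈ P i, z = emb u := by
  obtain ⟨h1, h2, h3, h4, h5, h6, h7⟩ := curve_facts hi
  obtain ⟨e, he, hz'⟩ := hz
  rw [← h5] at he
  exact lat_mem (hd_mem hi) h2 he hz' hl

lemma emb_mem_K_iff {i : ℕ} (hi : i < 10) {u : ℕ} : emb u ∈ K i ↔ u ∈ P i := by
  constructor
  · intro h
    obtain ⟨v, hv, hv'⟩ := lat_mem_K hi h (isLat_emb u)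
    rw [emb_injective hv']; exact hv
  · exact emb_mem_K hi

lemma pair_facts {i j : ℕ} (hi : i < 10) (hj : j < 10) (hij : i ≠ j) :
    (comm i j).length = 2 ∧ (∀ e ∈ E i, e ∉ E j) ∧
      (∃ e ∈ E i, sd j (e/2/32) (e/2%32) = 0) ∧ (∃ e ∈ E i, sd j (e/2/32) (e/2%32) = 1) := by
  have h := allR_sound (allR_sound ok_pair i hi) j hj
  simp only [Bool.or_eq_true, Nat.beq_eq] at h
  rcases h with h | h
  · exact absurd h hij
  · simp only [chkPair, Bool.and_eq_true, Nat.beq_eq, List.all_eq_true, List.any_eq_true,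
      Bool.not_eq_true'] at h
    obtain ⟨h1, h2, h3, h4⟩ := h
    refine ⟨h1, ?_, h3, h4⟩
    intro e he hej
    have := h2 e he
    rw [← memB_iff, this] at hej
    exact absurd hej (by decide)

lemma mem_comm {i j u : ℕ} : u ∈ comm i j ↔ u ∈ P i ∧ u ∈ P j := by
  unfold comm
  rw [List.mem_filter, memB_iff]

lemma inter_eq {i j : ℕ} (hi : i < 10) (hj : j < 10) (hij : i ≠ j) :
    K i ∩ K j = emb '' {u | u ∈ comm i j} := by
  ext z
  constructor
  · rintro ⟨⟨e, he, hz⟩, ⟨e', he', hz'⟩⟩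
    have hne : e ≠ e' := by
      rintro rfl
      exact (pair_facts hi hj hij).2.1 e he he'
    have hl := edge_edge hne hz hz'
    obtain ⟨u, hu, rfl⟩ := lat_mem_K hi ⟨e, he, hz⟩ hl
    refine ⟨u, ?_, rfl⟩
    exact mem_comm.2 ⟨hu, (emb_mem_K_iff hj).1 ⟨e', he', hz'⟩⟩
  · rintro ⟨u, hu, rfl⟩
    have hu' := mem_comm.1 hu
    exact ⟨emb_mem_K hi hu'.1, emb_mem_K hj hu'.2⟩

lemma ncard_list {l : List ℕ} (hl : l.Nodup) : (emb '' {u | u ∈ l}).ncard = l.length := by
  rw [Set.ncard_image_of_injective _ emb_injective]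
  have : {u | u ∈ l} = (↑l.toFinset : Set ℕ) := by ext; simp
  rw [this, Set.ncard_coe_finset, List.toFinset_card_of_nodup hl]

lemma inter_ncard {i j : ℕ} (hi : i < 10) (hj : j < 10) (hij : i ≠ j) :
    (K i ∩ K j).ncard = 2 := by
  rw [inter_eq hi hj hij, ncard_list, (pair_facts hi hj hij).1]
  exact (curve_facts hi).2.2.1.filter _

lemma triple_empty {i j k : ℕ} (hi : i < 10) (hj : j < 10) (hk : k < 10) (hij : i ≠ j)
    (hjk : j ≠ k) (hik : i ≠ k) : K i ∩ K j ∩ K k = ∅ := by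
  rw [Set.eq_empty_iff_forall_notMem]
  rintro z ⟨hz, hzk⟩
  rw [inter_eq hi hj hij] at hz
  obtain ⟨u, hu, rfl⟩ := hz
  have hu' := (emb_mem_K_iff hk).1 hzk
  have h := allR_sound (allR_sound ok_triple i hi) j hj
  simp only [Bool.or_eq_true, Nat.beq_eq] at h
  rcases h with h | h
  · exact hij h
  · have h2 := allR_sound h k hk
    simp only [Bool.or_eq_true, Nat.beq_eq] at h2
    rcases h2 with (h2 | h2) | h2
    · exact hik h2
    · exact hjk h2
    · simp only [chkTriple, List.all_eq_true, Bool.not_eq_true'] at h2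
      have := h2 u hu
      rw [← memB_iff, this] at hu'
      exact absurd hu' (by decide)

/-! ### walls -/

def HWi (i a b : ℕ) : Prop := 2 * (32 * a + b) ∈ E i ∧ b < 32
def VWi (i a b : ℕ) : Prop := 2 * (32 * a + b) + 1 ∈ E i ∧ b < 32

lemma K_eq (i : ℕ) : K i = wallSet (HWi i) (VWi i) := by
  ext z
  constructor
  · rintro ⟨e, he, hz⟩
    unfold edgeSet at hz
    by_cases h : e % 2 = 1
    · rw [if_pos h] at hz
      right
      refine ⟨e/2/32, e/2%32, ⟨?_, by omega⟩, hz⟩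
      have : 2 * (32 * (e / 2 / 32) + e / 2 % 32) + 1 = e := by omega
      rw [this]; exact he
    · rw [if_neg h] at hz
      left
      refine ⟨e/2/32, e/2%32, ⟨?_, by omega⟩, hz⟩
      have : 2 * (32 * (e / 2 / 32) + e / 2 % 32) = e := by omega
      rw [this]; exact he
  · rintro (⟨a, b, ⟨he, hb⟩, hz⟩ | ⟨a, b, ⟨he, hb⟩, hz⟩)
    · refine ⟨_, he, ?_⟩
      unfold edgeSet
      have h1 : ¬ (2 * (32 * a + b)) % 2 = 1 := by omega
      have h2 : (2 * (32 * a + b)) / 2 / 32 = a := by omega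
      have h3 : (2 * (32 * a + b)) / 2 % 32 = b := by omega
      rw [if_neg h1, h2, h3]; exact hz
    · refine ⟨_, he, ?_⟩
      unfold edgeSet
      have h1 : (2 * (32 * a + b) + 1) % 2 = 1 := by omega
      have h2 : (2 * (32 * a + b) + 1) / 2 / 32 = a := by omega
      have h3 : (2 * (32 * a + b) + 1) / 2 % 32 = b := by omega
      rw [if_pos h1, h2, h3]; exact hz

lemma edB_even {e : ℕ} (h : edB e = true) (he : e % 2 = 0) :
    1 ≤ e/2/32 ∧ e/2/32 + 1 ≤ 25 ∧ 1 ≤ e/2%32 ∧ e/2%32 ≤ 25 := by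
  unfold edB at h
  rw [he] at h
  simp only [Bool.and_eq_true, Nat.ble_eq] at h
  exact h

lemma edB_odd {e : ℕ} (h : edB e = true) (he : e % 2 = 1) :
    1 ≤ e/2/32 ∧ e/2/32 ≤ 25 ∧ 1 ≤ e/2%32 ∧ e/2%32 + 1 ≤ 25 := by
  unfold edB at h
  rw [he] at h
  simp only [Bool.and_eq_true, Nat.ble_eq] at h
  exact h

lemma bounded_i {i : ℕ} (hi : i < 10) : Bounded 25 25 (HWi i) (VWi i) := by
  obtain ⟨h1, h2, h3, h4, h5, h6, h7⟩ := curve_facts hi
  constructor
  · rintro a b ⟨he, hb⟩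
    have := edB_even (h7 _ he) (by omega)
    have h2 : (2 * (32 * a + b)) / 2 / 32 = a := by omega
    have h3 : (2 * (32 * a + b)) / 2 % 32 = b := by omega
    rw [h2, h3] at this; exact this
  · rintro a b ⟨he, hb⟩
    have := edB_odd (h7 _ he) (by omega)
    have h2 : (2 * (32 * a + b) + 1) / 2 / 32 = a := by omega
    have h3 : (2 * (32 * a + b) + 1) / 2 % 32 = b := by omega
    rw [h2, h3] at this; exact this

lemma labelOK_side {j : ℕ} (hj : j < 10) : LabelOK 25 25 (HWi j) (VWi j) (sd j) := by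
  have h := allR_sound ok_side j hj
  unfold chkSide at h
  constructor
  · intro a b ha hb
    have h1 := allR_sound (allR_sound h a (by omega)) b (by omega)
    simp only [Bool.and_eq_true, Bool.or_eq_true, Nat.beq_eq] at h1
    rcases h1.1 with h2 | h2 | h2
    · omega
    · left; exact h2
    · right; exact ⟨memB_iff.1 h2, by omega⟩
  · intro a b ha hb
    have h1 := allR_sound (allR_sound h a (by omega)) b (by omega)
    simp only [Bool.and_eq_true, Bool.or_eq_true, Nat.beq_eq] at h1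
    rcases h1.2 with h2 | h2 | h2
    · omega
    · left; exact h2
    · right; exact ⟨memB_iff.1 h2, by omega⟩

/-! ### crossing -/

/-- midpoint of an edge -/
noncomputable def mid (e : ℕ) : ℂ :=
  if e % 2 = 1 then ⟨((e/2/32 : ℕ) : ℝ), ((e/2%32 : ℕ) : ℝ) + 1/2⟩
  else ⟨((e/2/32 : ℕ) : ℝ) + 1/2, ((e/2%32 : ℕ) : ℝ)⟩

lemma mid_mem (e : ℕ) : mid e ∈ edgeSet e := by
  unfold mid edgeSet
  by_cases h : e % 2 = 1
  · rw [if_pos h, if_pos h]; exact ⟨rfl, by simp, by simp; norm_num⟩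
  · rw [if_neg h, if_neg h]; exact ⟨rfl, by simp, by simp; norm_num⟩

lemma half_ne (a : ℕ) (c : ℤ) : ((a : ℝ) + 1/2) ≠ c := by
  intro h
  have h1 : ((2 * a + 1 : ℤ) : ℝ) = ((2 * c : ℤ) : ℝ) := by push_cast; linarith
  have h2 : (2 * a + 1 : ℤ) = 2 * c := by exact_mod_cast h1
  omega

lemma mid_not_lat (e : ℕ) : ¬ IsLat (mid e) := by
  rintro ⟨c, d, h⟩
  unfold mid at h
  by_cases h' : e % 2 = 1
  · rw [if_pos h'] at h
    exact half_ne _ _ (congrArg Complex.im h)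
  · rw [if_neg h'] at h
    exact half_ne _ _ (congrArg Complex.re h)

lemma mid_near {e : ℕ} (h : edB e = true) :
    near 25 (mid e).re (e/2/32) ∧ near 25 (mid e).im (e/2%32) := by
  unfold mid
  by_cases h' : e % 2 = 1
  · rw [if_pos h']
    obtain ⟨h1, h2, h3, h4⟩ := edB_odd h h'
    exact ⟨⟨h2, fun _ => le_refl _, fun _ => by simp⟩,
      ⟨by omega, fun _ => by simp, fun _ => by simp; norm_num⟩⟩
  · rw [if_neg h']
    obtain ⟨h1, h2, h3, h4⟩ := edB_even h (by omega)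
    exact ⟨⟨by omega, fun _ => by simp, fun _ => by simp; norm_num⟩,
      ⟨h4, fun _ => le_refl _, fun _ => by simp⟩⟩

lemma mid_not_mem {i j : ℕ} (hi : i < 10) (hj : j < 10) (hij : i ≠ j) {e : ℕ} (he : e ∈ E i) :
    mid e ∉ K j := by
  rintro ⟨e', he', hz⟩
  have hne : e ≠ e' := by
    rintro rfl
    exact (pair_facts hi hj hij).2.1 e he he'
  exact mid_not_lat e (edge_edge hne (mid_mem e) hz)

lemma lab_mid {i j : ℕ} (hi : i < 10) (hj : j < 10) (hij : i ≠ j) {e : ℕ} (he : e ∈ E i) :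
    lab 25 25 (sd j) (mid e) = sd j (e/2/32) (e/2%32) := by
  have h1 := mid_not_mem hi hj hij he
  rw [K_eq] at h1
  have h2 := mid_near ((curve_facts hi).2.2.2.2.2.2 e he)
  exact label_core (bounded_i hj) (labelOK_side hj) h1 (near_ix _ _) h2.1 (near_ix _ _) h2.2

lemma crossing {i j : ℕ} (hi : i < 10) (hj : j < 10) (hij : i ≠ j) :
    ∃ x ∈ K i \ K j, ∃ y ∈ K i \ K j, y ∉ connectedComponentIn (K j)ᶜ x := by
  obtain ⟨_, _, ⟨e, he, hs⟩, ⟨e', he', hs'⟩⟩ := pair_facts hi hj hij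
  refine ⟨mid e, ⟨⟨e, he, mid_mem e⟩, mid_not_mem hi hj hij he⟩, mid e',
    ⟨⟨e', he', mid_mem e'⟩, mid_not_mem hi hj hij he'⟩, ?_⟩
  intro hcon
  rw [K_eq j] at hcon
  have := lab_const (bounded_i hj) (labelOK_side hj) hcon
  rw [lab_mid hi hj hij he, lab_mid hi hj hij he', hs, hs'] at this
  exact absurd this (by decide)

/-! ### the faces -/

def HU (a b : ℕ) : Prop := ∃ i < 10, HWi i a b
def VU (a b : ℕ) : Prop := ∃ i < 10, VWi i a b

lemma bounded_U : Bounded 25 25 HU VU := by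
  constructor
  · rintro a b ⟨i, hi, h⟩; exact (bounded_i hi).hb a b h
  · rintro a b ⟨i, hi, h⟩; exact (bounded_i hi).vb a b h

lemma union_eq : (⋃ i : Fin 10, K i) = wallSet HU VU := by
  ext z
  simp only [Set.mem_iUnion, K_eq]
  constructor
  · rintro ⟨i, ⟨a, b, h, hz⟩ | ⟨a, b, h, hz⟩⟩
    · left; exact ⟨a, b, ⟨i, i.2, h⟩, hz⟩
    · right; exact ⟨a, b, ⟨i, i.2, h⟩, hz⟩
  · rintro (⟨a, b, ⟨i, hi, h⟩, hz⟩ | ⟨a, b, ⟨i, hi, h⟩, hz⟩)
    · exact ⟨⟨i, hi⟩, Or.inl ⟨a, b, h, hz⟩⟩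
    · exact ⟨⟨i, hi⟩, Or.inr ⟨a, b, h, hz⟩⟩

lemma lab_facts {a b : ℕ} (ha : a ≤ 25) (hb : b ≤ 25) : lb a b < 92 ∧
    (a + 1 ≤ 25 → lb a b = lb (a+1) b ∨ VU (a+1) b) ∧
    (b + 1 ≤ 25 → lb a b = lb a (b+1) ∨ HU a (b+1)) := by
  have h := ok_lab
  unfold chkLab at h
  have h1 := allR_sound (allR_sound h a (by omega)) b (by omega)
  simp only [Bool.and_eq_true, Bool.or_eq_true, Nat.beq_eq, Nat.ble_eq] at h1
  obtain ⟨h2, h3, h4⟩ := h1
  refine ⟨by omega, ?_, ?_⟩
  · intro hA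
    rcases h3 with h | h | h
    · omega
    · left; exact h
    · right
      obtain ⟨i, hi, hm⟩ := anyR_sound h
      exact ⟨i, hi, memB_iff.1 hm, by omega⟩
  · intro hA
    rcases h4 with h | h | h
    · omega
    · left; exact h
    · right
      obtain ⟨i, hi, hm⟩ := anyR_sound h
      exact ⟨i, hi, memB_iff.1 hm, by omega⟩

lemma labelOK_U : LabelOK 25 25 HU VU lb := by
  constructor
  · intro a b ha hb; exact (lab_facts (by omega) hb).2.1 ha
  · intro a b ha hb; exact (lab_facts ha (by omega)).2.2 hb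

lemma wall_bit {e : ℕ} {i : ℕ} (hi : i < 10) (he : e ∈ E i) : wb e = 1 := by
  have h := ok_wall
  unfold chkWall at h
  have h1 := allR_sound h i hi
  rw [List.all_eq_true] at h1
  simpa [Nat.beq_eq] using h1 e he

lemma not_VU {a b : ℕ} (h : wb (2*(32*a+b)+1) = 0) : ¬ VU a b := by
  rintro ⟨i, hi, he, _⟩
  rw [wall_bit hi he] at h
  exact absurd h (by decide)

lemma not_HU {a b : ℕ} (h : wb (2*(32*a+b)) = 0) : ¬ HU a b := by
  rintro ⟨i, hi, he, _⟩
  rw [wall_bit hi he] at h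
  exact absurd h (by decide)

/-- component containing the center of cell `(a,b)` -/
def comp (a b : ℕ) : Set ℂ := connectedComponentIn (wallSet HU VU)ᶜ (ctr a b)

/-- the face with label `l` -/
def face (l : ℕ) : Set ℂ := comp (rt l / 32) (rt l % 32)

lemma comp_face : ∀ r a b : ℕ, rk a b < r → a ≤ 25 → b ≤ 25 → comp a b = face (lb a b) := by
  intro r
  induction r with
  | zero => intro a b h; omega
  | succ r ih =>
    intro a b hr ha hb
    have h := allR_sound (allR_sound ok_dir a (by omega)) b (by omega)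
    unfold chkDir at h
    split at h
    · rw [Nat.beq_eq] at h
      unfold face
      rw [h]
      have h1 : (32 * a + b) / 32 = a := by omega
      have h2 : (32 * a + b) % 32 = b := by omega
      rw [h1, h2]
    · simp only [Bool.and_eq_true, Nat.ble_eq, Nat.beq_eq, Nat.blt_eq] at h
      obtain ⟨h1, h2, h3, h4⟩ := h
      obtain ⟨c, rfl⟩ : ∃ c, a = c + 1 := ⟨a - 1, by omega⟩
      simp only [Nat.add_sub_cancel] at h2 h3
      have e1 := comp_eq_v bounded_U (a := c) (b := b) ha hb (not_VU h4)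
      have e2 := ih c b (by omega) (by omega) hb
      rw [h2] at e2
      rw [← e2]
      exact e1.symm
    · simp only [Bool.and_eq_true, Nat.ble_eq, Nat.beq_eq, Nat.blt_eq] at h
      obtain ⟨h1, h2, h3, h4⟩ := h
      have e1 := comp_eq_v bounded_U (a := a) (b := b) h1 hb (not_VU h4)
      have e2 := ih (a+1) b (by omega) h1 hb
      rw [h2] at e2
      rw [← e2]
      exact e1
    · simp only [Bool.and_eq_true, Nat.ble_eq, Nat.beq_eq, Nat.blt_eq] at h
      obtain ⟨h1, h2, h3, h4⟩ := h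
      obtain ⟨c, rfl⟩ : ∃ c, b = c + 1 := ⟨b - 1, by omega⟩
      simp only [Nat.add_sub_cancel] at h2 h3
      have e1 := comp_eq_h bounded_U (a := a) (b := c) ha hb (not_HU h4)
      have e2 := ih a c (by omega) ha (by omega)
      rw [h2] at e2
      rw [← e2]
      exact e1.symm
    · simp only [Bool.and_eq_true, Nat.ble_eq, Nat.beq_eq, Nat.blt_eq] at h
      obtain ⟨h1, h2, h3, h4⟩ := h
      have e1 := comp_eq_h bounded_U (a := a) (b := b) ha h1 (not_HU h4)
      have e2 := ih a (b+1) (by omega) ha h1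
      rw [h2] at e2
      rw [← e2]
      exact e1

lemma comp_face' {a b : ℕ} (ha : a ≤ 25) (hb : b ≤ 25) : comp a b = face (lb a b) :=
  comp_face _ a b (Nat.lt_succ_self _) ha hb

lemma ctr_lab {a b : ℕ} (ha : a ≤ 25) (hb : b ≤ 25) : lab 25 25 lb (ctr a b) = lb a b := by
  have hU := openCell_subset bounded_U ha hb (ctr_mem 25 25 a b)
  refine label_core bounded_U labelOK_U hU (near_ix _ _) ?_ (near_ix _ _) ?_
  · refine ⟨ha, fun _ => ?_, fun _ => ?_⟩ <;> unfold ctr <;> simp <;> norm_num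
  · refine ⟨hb, fun _ => ?_, fun _ => ?_⟩ <;> unfold ctr <;> simp <;> norm_num

/-! ### crossing points -/

lemma X_facts : X.Nodup ∧ (∀ u ∈ X, ptB u = true) ∧
    (∀ u ∈ X, ∃ i < 10, ∃ j < 10, i ≠ j ∧ u ∈ P i ∧ u ∈ P j) ∧
    (∀ i < 10, ∀ j < 10, i ≠ j → ∀ u ∈ comm i j, u ∈ X) := by
  have h := ok_X
  unfold chkX at h
  simp only [Bool.and_eq_true, List.all_eq_true] at h
  obtain ⟨h1, h2, h3, h4⟩ := h
  refine ⟨nodupB_sound h1, h2, ?_, ?_⟩
  · intro u hu
    obtain ⟨i, hi, h5⟩ := anyR_sound (h3 u hu)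
    simp only [Bool.and_eq_true] at h5
    obtain ⟨j, hj, h6⟩ := anyR_sound h5.2
    simp only [Bool.and_eq_true, Bool.not_eq_true'] at h6
    refine ⟨i, hi, j, hj, ?_, memB_iff.1 h5.1, memB_iff.1 h6.2⟩
    rintro rfl
    have := h6.1
    rw [Nat.beq_refl] at this
    exact absurd this (by decide)
  · intro i hi j hj hij u hu
    have h5 := allR_sound (allR_sound h4 i hi) j hj
    simp only [Bool.or_eq_true, Nat.beq_eq, List.all_eq_true] at h5
    rcases h5 with h5 | h5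
    · exact absurd h5 hij
    · exact memB_iff.1 (h5 u hu)

lemma ptB_facts {u : ℕ} (h : ptB u = true) : 1 ≤ u/32 ∧ u/32 ≤ 25 ∧ 1 ≤ u%32 ∧ u%32 ≤ 25 := by
  unfold ptB at h
  simpa only [Bool.and_eq_true, Nat.ble_eq] using h

lemma cross_eq : {p : ℂ | ∃ i j : Fin 10, i ≠ j ∧ p ∈ K i ∧ p ∈ K j} = emb '' {u | u ∈ X} := by
  ext p
  constructor
  · rintro ⟨i, j, hij, hi, hj⟩
    have hij' : (i:ℕ) ≠ j := fun h => hij (Fin.ext h)
    have : p ∈ K i ∩ K j := ⟨hi, hj⟩
    rw [inter_eq i.2 j.2 hij'] at this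
    obtain ⟨u, hu, rfl⟩ := this
    exact ⟨u, X_facts.2.2.2 i i.2 j j.2 hij' u hu, rfl⟩
  · rintro ⟨u, hu, rfl⟩
    obtain ⟨i, hi, j, hj, hij, h1, h2⟩ := X_facts.2.2.1 u hu
    exact ⟨⟨i, hi⟩, ⟨j, hj⟩, fun h => hij (Fin.mk.inj_iff.1 h), emb_mem_K hi h1, emb_mem_K hj h2⟩

lemma near_lat {k a : ℕ} (hk : 1 ≤ k) (hk' : k ≤ 25) : near 25 (k:ℝ) a ↔ a = k ∨ a = k - 1 := by
  unfold near
  constructor
  · rintro ⟨h1, h2, h3⟩
    have h2' : 1 ≤ a → a ≤ k := fun h => by exact_mod_cast h2 h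
    have h3' : a < 25 → k ≤ a + 1 := fun h => by exact_mod_cast h3 h
    by_cases ha : 1 ≤ a <;> by_cases hb : a < 25
    · have := h2' ha; have := h3' hb; omega
    · have := h2' ha; omega
    · have := h3' hb; omega
    · omega
  · rintro (rfl | rfl)
    · exact ⟨hk', fun _ => le_refl _, fun _ => by linarith⟩
    · refine ⟨by omega, fun _ => ?_, fun _ => ?_⟩
      · exact_mod_cast Nat.sub_le k 1
      · have : k ≤ (k - 1) + 1 := by omega
        exact_mod_cast this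

lemma adjLab_iff {l u : ℕ} (hu : ptB u = true) : adjLab l u = true ↔
    ∃ a b, near 25 (emb u).re a ∧ near 25 (emb u).im b ∧ lb a b = l := by
  obtain ⟨h1, h2, h3, h4⟩ := ptB_facts hu
  simp only [emb_re, emb_im, near_lat h1 h2, near_lat h3 h4]
  simp only [adjLab, Bool.or_eq_true, Nat.beq_eq]
  constructor
  · rintro ((h | h) | (h | h))
    · exact ⟨_, _, Or.inl rfl, Or.inl rfl, h⟩
    · exact ⟨_, _, Or.inr rfl, Or.inl rfl, h⟩
    · exact ⟨_, _, Or.inl rfl, Or.inr rfl, h⟩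
    · exact ⟨_, _, Or.inr rfl, Or.inr rfl, h⟩
  · rintro ⟨a, b, rfl | rfl, rfl | rfl, h⟩
    · exact Or.inl (Or.inl h)
    · exact Or.inr (Or.inl h)
    · exact Or.inl (Or.inr h)
    · exact Or.inr (Or.inr h)

/-- the crossing points on the closure of the face of cell `(a,b)` -/
lemma closure_inter {a b : ℕ} (ha : a ≤ 25) (hb : b ≤ 25) :
    closure (comp a b) ∩ (emb '' {u | u ∈ X}) = emb '' {u | u ∈ X.filter (adjLab (lb a b))} := by
  ext p
  constructor
  · rintro ⟨hp, u, hu, rfl⟩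
    refine ⟨u, ?_, rfl⟩
    have hu' := X_facts.2.1 u hu
    obtain ⟨a', b', h1, h2, h3⟩ := lab_closure bounded_U labelOK_U hp
    rw [ctr_lab ha hb] at h3
    exact List.mem_filter.2 ⟨hu, (adjLab_iff hu').2 ⟨a', b', h1, h2, h3⟩⟩
  · rintro ⟨u, hu, rfl⟩
    obtain ⟨hu1, hu2⟩ := List.mem_filter.1 hu
    refine ⟨?_, u, hu1, rfl⟩
    have hu' := X_facts.2.1 u hu1
    obtain ⟨a', b', h1, h2, h3⟩ := (adjLab_iff hu').1 hu2
    have := mem_closure_comp bounded_U h1 h2
    change emb u ∈ closure (comp a' b') at this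
    rw [comp_face' h1.1 h2.1, h3, ← comp_face' ha hb] at this
    exact this

theorem main : ∃ γ : Fin 10 → Circle → ℂ,
    (∀ i, Continuous (γ i) ∧ Function.Injective (γ i)) ∧
    (∀ i j, i ≠ j →
      (Set.range (γ i) ∩ Set.range (γ j)).ncard = 2 ∧
      ∃ x ∈ Set.range (γ i) \ Set.range (γ j),
        ∃ y ∈ Set.range (γ i) \ Set.range (γ j),
          y ∉ connectedComponentIn (Set.range (γ j))ᶜ x) ∧
    (∀ i j k, i ≠ j → j ≠ k → i ≠ k →
      Set.range (γ i) ∩ Set.range (γ j) ∩ Set.range (γ k) = ∅) ∧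
    Set.ncard {F : Set ℂ |
      (∃ x, x ∉ (⋃ i, Set.range (γ i)) ∧
        F = connectedComponentIn (⋃ i, Set.range (γ i))ᶜ x) ∧
      (closure F ∩ {p : ℂ | ∃ i j, i ≠ j ∧ p ∈ Set.range (γ i) ∧
        p ∈ Set.range (γ j)}).ncard = 3} ≤ 8 := by
  choose γ h1 h2 h3 using exists_gamma
  have hK : ∀ i : Fin 10, Set.range (γ i) = K i := h3
  have hv : ∀ {i j : Fin 10}, i ≠ j → (i:ℕ) ≠ j := fun h h' => h (Fin.ext h')
  refine ⟨γ, fun i => ⟨h1 i, h2 i⟩, ?_, ?_, ?_⟩
  · intro i j hij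
    simp only [hK]
    exact ⟨inter_ncard i.2 j.2 (hv hij), crossing i.2 j.2 (hv hij)⟩
  · intro i j k hij hjk hik
    simp only [hK]
    exact triple_empty i.2 j.2 k.2 (hv hij) (hv hjk) (hv hik)
  · simp only [hK]
    rw [union_eq, cross_eq]
    have hsub : {F : Set ℂ | (∃ x, x ∉ wallSet HU VU ∧
        F = connectedComponentIn (wallSet HU VU)ᶜ x) ∧
        (closure F ∩ (emb '' {u | u ∈ X})).ncard = 3} ⊆ face '' (↑T.toFinset : Set ℕ) := by
      rintro F ⟨⟨x, hx, rfl⟩, hF⟩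
      have hxa := near_ix 25 x.re
      have hxb := near_ix 25 x.im
      have e1 : connectedComponentIn (wallSet HU VU)ᶜ x = comp (ix 25 x.re) (ix 25 x.im) :=
        comp_eq bounded_U hx hxa hxb
      rw [e1] at hF ⊢
      rw [closure_inter hxa.1 hxb.1, ncard_list (X_facts.1.filter _)] at hF
      refine ⟨lb (ix 25 x.re) (ix 25 x.im), ?_, (comp_face' hxa.1 hxb.1).symm⟩
      have h := ok_T
      unfold chkT at h
      have h4 := allR_sound h _ (lab_facts hxa.1 hxb.1).1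
      rw [hF] at h4
      simp only [Nat.beq_refl, Bool.not_true, Bool.false_or] at h4
      simpa using memB_iff.1 h4
    calc _ ≤ (face '' (↑T.toFinset : Set ℕ)).ncard :=
          Set.ncard_le_ncard hsub ((Finset.finite_toSet _).image _)
      _ ≤ (↑T.toFinset : Set ℕ).ncard := Set.ncard_image_le (Finset.finite_toSet _)
      _ = T.toFinset.card := Set.ncard_coe_finset _
      _ ≤ T.length := List.toFinset_card_le _
      _ = 8 := ok_T_length

end Run7.h890
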